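import Mathlib
import Pool.Agent.helper29.NS.Spec2

/-!
# Project ns, module BV: countable cover of the pairs of curves.
-/

namespace NS

open MeasureTheory Filter Topology Set

theorem BV_main {Y : Type} [MetricSpace Y] (u : ℕ → Y) (hu : DenseRange u) (C D : Set (ℝ → Y))
    (γ γ' : ℝ → Y) (hC : γ ∈ C) (hD : γ' ∈ D) (hγ : Continuous γ) (hγ' : Continuous γ') (t0 : ℝ)
    (hne : γ t0 ≠ γ' t0) (hnc : ¬ ∀ᶠ t in 𝓝 t0, γ t = γ t0) :
    ∃ (α β r η : ℚ) (i j : ℕ), (α : ℝ) < β ∧ (0 : ℝ) < r ∧ (0 : ℝ) < η ∧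
      (γ, γ') ∈ WP C D α β (u i) (u j) r η := by
  have hd : 0 < dist (γ t0) (γ' t0) := dist_pos.2 hne
  obtain ⟨r, hr0, hr1⟩ := exists_rat_btwn (show (0 : ℝ) < dist (γ t0) (γ' t0) / 3 by positivity)
  obtain ⟨i, hi⟩ := hu.exists_dist_lt (γ t0) (show (0 : ℝ) < (r : ℝ) / 2 by positivity)
  have h1 : dist (γ t0) (u i) < r := by linarith
  have h2 : 2 * (r : ℝ) < dist (γ' t0) (u i) := by
    have := dist_triangle (γ t0) (u i) (γ' t0)
    rw [dist_comm (u i) (γ' t0)] at this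
    linarith
  have e1 : ∀ᶠ t in 𝓝 t0, dist (γ t) (u i) < r :=
    (hγ.dist continuous_const).continuousAt.eventually_lt_const h1
  have e2 : ∀ᶠ t in 𝓝 t0, 2 * (r : ℝ) < dist (γ' t) (u i) :=
    (hγ'.dist continuous_const).continuousAt.eventually_const_lt h2
  obtain ⟨δ, hδ, hδ'⟩ := Metric.eventually_nhds_iff.1 (e1.and e2)
  obtain ⟨α, hα1, hα2⟩ := exists_rat_btwn (show t0 - δ < t0 by linarith)
  obtain ⟨β, hβ1, hβ2⟩ := exists_rat_btwn (show t0 < t0 + δ by linarith)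
  have hwin : ∀ t ∈ Icc (α : ℝ) β, dist (γ t) (u i) < r ∧ 2 * (r : ℝ) < dist (γ' t) (u i) := by
    intro t ht
    apply hδ'
    rw [Real.dist_eq, abs_lt]
    constructor
    · linarith [ht.1]
    · linarith [ht.2]
  have hI : Ioo (α : ℝ) β ∈ 𝓝 t0 := Ioo_mem_nhds hα2 hβ1
  have hfr : ∃ᶠ t in 𝓝 t0, γ t ≠ γ t0 := not_eventually.1 hnc
  obtain ⟨t1, ht1, ht1'⟩ := (hfr.and_eventually hI).exists
  have he : 0 < dist (γ t1) (γ t0) := dist_pos.2 ht1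
  obtain ⟨j, hj⟩ := hu.exists_dist_lt (γ t0) (show (0 : ℝ) < dist (γ t1) (γ t0) / 4 by positivity)
  obtain ⟨η, hη0, hη1⟩ := exists_rat_btwn (show (0 : ℝ) < dist (γ t1) (γ t0) / 2 by positivity)
  refine ⟨α, β, r, η, i, j, by linarith, hr0, hη0, hC, hD, fun t ht => (hwin t ht).1.le,
    fun t ht => (hwin t ht).2.le, t1, ⟨ht1'.1.le, ht1'.2.le⟩, t0, ⟨hα2.le, hβ1.le⟩, ?_⟩
  have h3 := dist_triangle (γ t1) (u j) (γ t0)
  rw [dist_comm (u j) (γ t0)] at h3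
  have h4 : dist (γ t1) (u j) - dist (γ t0) (u j) ≤ |dist (γ t1) (u j) - dist (γ t0) (u j)| :=
    le_abs_self _
  show (η : ℝ) ≤ |dist (γ t1) (u j) - dist (γ t0) (u j)|
  linarith

theorem BV : BV_stmt := by
  intro Y _ u hu C D γ γ' hC hD hγ hγ' hne hnc
  obtain ⟨t1, ht1⟩ := Function.ne_iff.1 hne
  have key : ∃ t0, γ t0 ≠ γ' t0 ∧ ¬ (∀ᶠ t in 𝓝 t0, γ t = γ t0 ∧ γ' t = γ' t0) := by
    by_contra hcon
    push Not at hcon
    set S : Set ℝ := {t | γ t = γ t1 ∧ γ' t = γ' t1} with hS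
    have hcl : IsClosed S := (isClosed_eq hγ continuous_const).inter (isClosed_eq hγ' continuous_const)
    have hop : IsOpen S := by
      rw [isOpen_iff_mem_nhds]
      intro t ht
      have h1 : γ t ≠ γ' t := by rw [ht.1, ht.2]; exact ht1
      filter_upwards [hcon t h1] with s hs
      exact ⟨hs.1.trans ht.1, hs.2.trans ht.2⟩
    have huniv : S = univ := IsClopen.eq_univ ⟨hcl, hop⟩ ⟨t1, rfl, rfl⟩
    apply hnc
    have h0 : (0 : ℝ) ∈ S := huniv ▸ mem_univ _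
    constructor
    · intro t
      have h : t ∈ S := huniv ▸ mem_univ _
      rw [h.1, h0.1]
    · intro t
      have h : t ∈ S := huniv ▸ mem_univ _
      rw [h.2, h0.2]
  obtain ⟨t0, h0, hn⟩ := key
  rw [eventually_and, not_and_or] at hn
  rcases hn with hn | hn
  · obtain ⟨α, β, r, η, i, j, h1, h2, h3, h4⟩ := BV_main u hu C D γ γ' hC hD hγ hγ' t0 h0 hn
    exact ⟨α, β, r, η, i, j, h1, h2, h3, Or.inl h4⟩
  · obtain ⟨α, β, r, η, i, j, h1, h2, h3, h4⟩ := BV_main u hu D C γ' γ hD hC hγ' hγ t0 h0.symm hn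
    exact ⟨α, β, r, η, i, j, h1, h2, h3, Or.inr h4⟩

end NS
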