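import Mathlib
import Pool.Agent.helper29.NS.Spec2

/-!
# Project ns, module CW: properties of exp (tau wt) w.
-/

namespace NS

open MeasureTheory Filter Topology Set

theorem CW_wt_smooth (l : ℝ) : ContDiff ℝ 2 (wt l) := by
  unfold wt rh
  fun_prop

/-- derivative of the weight -/
theorem CW_wt_fderiv (l : ℝ) (z : ℝ × ℝ × ℝ) :
    fderiv ℝ (wt l) z (0, 1, 0) = -(2 * l * z.2.1 * Real.exp (-(l * rh z))) ∧
    fderiv ℝ (wt l) z (0, 0, 1) = -(2 * l * z.2.2 * Real.exp (-(l * rh z))) := by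
  set L0 : (ℝ × ℝ × ℝ) →L[ℝ] ℝ := ContinuousLinearMap.fst ℝ ℝ (ℝ × ℝ) with hL0
  set L1 : (ℝ × ℝ × ℝ) →L[ℝ] ℝ := (ContinuousLinearMap.fst ℝ ℝ ℝ).comp (ContinuousLinearMap.snd ℝ ℝ (ℝ × ℝ)) with hL1
  set L2 : (ℝ × ℝ × ℝ) →L[ℝ] ℝ := (ContinuousLinearMap.snd ℝ ℝ ℝ).comp (ContinuousLinearMap.snd ℝ ℝ (ℝ × ℝ)) with hL2
  have h0 : HasFDerivAt (fun z : ℝ × ℝ × ℝ => z.1) L0 z := L0.hasFDerivAt
  have h1 : HasFDerivAt (fun z : ℝ × ℝ × ℝ => z.2.1) L1 z := L1.hasFDerivAt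
  have h2 : HasFDerivAt (fun z : ℝ × ℝ × ℝ => z.2.2) L2 z := L2.hasFDerivAt
  have hr := (h1.pow 2).add (h2.pow 2)
  have hw := ((hr.const_mul l).neg.exp).sub (h0.pow 2)
  have e : fderiv ℝ (wt l) z = _ := HasFDerivAt.fderiv (f := wt l) hw
  rw [e]
  constructor
  · simp [hL0, hL1, hL2, rh]
    ring
  · simp [hL0, hL1, hL2, rh]
    ring

theorem CW_mul (l τ : ℝ) (w : ℝ × ℝ × ℝ → ℝ) (hw : ContDiff ℝ 2 w) (z v : ℝ × ℝ × ℝ) :
    fderiv ℝ (fun z => Real.exp (τ * wt l z) * w z) z v =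
      Real.exp (τ * wt l z) * (τ * fderiv ℝ (wt l) z v) * w z + Real.exp (τ * wt l z) * fderiv ℝ w z v := by
  have h1 : HasFDerivAt (wt l) (fderiv ℝ (wt l) z) z :=
    ((CW_wt_smooth l).differentiable (by norm_num) z).hasFDerivAt
  have h2 : HasFDerivAt w (fderiv ℝ w z) z := (hw.differentiable (by norm_num) z).hasFDerivAt
  have h3 := ((h1.const_mul τ).exp).mul h2
  have e : fderiv ℝ (fun z => Real.exp (τ * wt l z) * w z) z = _ :=
    HasFDerivAt.fderiv (f := fun z => Real.exp (τ * wt l z) * w z) h3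
  rw [e]
  simp
  ring

theorem CW : CW_stmt := by
  intro l τ w hw hc
  refine ⟨?_, ?_, fun z => ⟨?_, ?_⟩⟩
  · have h1 : ContDiff ℝ 2 (fun z => Real.exp (τ * wt l z)) :=
      (contDiff_const.mul (CW_wt_smooth l)).exp
    exact h1.mul hw
  · exact hc.mul_left
  · unfold dx
    rw [CW_mul l τ w hw, (CW_wt_fderiv l z).1]
    ring
  · unfold dy
    rw [CW_mul l τ w hw, (CW_wt_fderiv l z).2]
    ring

end NS
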