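import Mathlib
import Pool.Agent.helper29.NS.Spec2

/-!
# Project ns, module UI: unique continuation in a connected open set (from UL).
-/

namespace NS

open MeasureTheory Filter Topology Set

theorem UI_Dsc_sub (c : ℝ × ℝ) (R : ℝ) (hR : 0 < R) : Dsc c R ⊆ Metric.ball c R := by
  intro q hq
  have h : (q.1 - c.1) ^ 2 + (q.2 - c.2) ^ 2 < R ^ 2 := hq
  rw [Metric.mem_ball, Prod.dist_eq, max_lt_iff, Real.dist_eq, Real.dist_eq]
  constructor
  · apply abs_lt_of_sq_lt_sq _ hR.le
    nlinarith [sq_nonneg (q.2 - c.2)]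
  · apply abs_lt_of_sq_lt_sq _ hR.le
    nlinarith [sq_nonneg (q.1 - c.1)]

theorem UI_sub_Dsc (c q : ℝ × ℝ) (R : ℝ) (hR : 0 < R) (h : dist q c < R / 2) : q ∈ Dsc c R := by
  rw [Prod.dist_eq, max_lt_iff, Real.dist_eq, Real.dist_eq, abs_lt, abs_lt] at h
  show (q.1 - c.1) ^ 2 + (q.2 - c.2) ^ 2 < R ^ 2
  have h1 : (q.1 - c.1) ^ 2 < (R / 2) ^ 2 := by nlinarith [h.1.1, h.1.2]
  have h2 : (q.2 - c.2) ^ 2 < (R / 2) ^ 2 := by nlinarith [h.2.1, h.2.2]
  nlinarith

theorem UI_Dsc_open (c : ℝ × ℝ) (R : ℝ) : IsOpen (Dsc c R) := by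
  unfold Dsc
  apply isOpen_lt _ continuous_const
  fun_prop

theorem UI (hUL : UL_stmt) : UI_stmt := by
  intro O ν K v w hO hOc hν hv hw hineq ⟨U, hU, hUne, hUO, hUz⟩
  set S : Set (ℝ × ℝ) := {q | ∀ t, v (t, q) = 0 ∧ w (t, q) = 0} with hS
  have hUS : U ⊆ interior S := interior_maximal (fun q hq t => hUz t q hq) hU
  have key : O ⊆ interior S := by
    apply hOc.subset_of_closure_inter_subset isOpen_interior
    · obtain ⟨q, hq⟩ := hUne
      exact ⟨q, hUO hq, hUS hq⟩
    · rintro q ⟨hqc, hqO⟩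
      obtain ⟨ρ, hρ, hρO⟩ := Metric.isOpen_iff.1 hO q hqO
      have hR : 0 < ρ / 2 := by positivity
      obtain ⟨c, hcS, hcq⟩ := Metric.mem_closure_iff.1 hqc (ρ / 2 / 2) (by positivity)
      obtain ⟨ε', hε', hε'S⟩ := Metric.isOpen_iff.1 isOpen_interior c hcS
      have hsub : Dsc c (ρ / 2) ⊆ O := by
        intro z hz
        apply hρO
        have h1 := UI_Dsc_sub c (ρ / 2) hR hz
        rw [Metric.mem_ball] at h1 ⊢
        have h2 := dist_triangle z c q
        rw [dist_comm c q] at h2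
        linarith
      set ε : ℝ := min ε' (ρ / 4) with hε
      have hε0 : 0 < ε := lt_min hε' (by positivity)
      have hε1 : ε ≤ ρ / 4 := min_le_right _ _
      have hz := hUL c (ρ / 2) ε ν K v w hε0 (by linarith) hν
        (hv.mono (prod_mono_right hsub)) (hw.mono (prod_mono_right hsub))
        (fun t z hz => hineq t z (hsub hz))
        (fun t z hz => by
          have h1 := UI_Dsc_sub c ε hε0 hz
          have h2 : z ∈ Metric.ball c ε' := Metric.ball_subset_ball (min_le_left _ _) h1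
          exact interior_subset (hε'S h2) t)
      have h3 : Dsc c (ρ / 2) ⊆ interior S :=
        interior_maximal (fun z hz' t => hz t z hz') (UI_Dsc_open _ _)
      exact h3 (UI_sub_Dsc c q (ρ / 2) hR hcq)
  intro t q hq
  exact interior_subset (key hq) t

end NS
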