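import Mathlib
import Pool.Agent.helper29.NS.SpecD

/-!
# Project ns, module AF: arc points, and endpoints of arcs, are boundary points.
-/

namespace NS

open MeasureTheory Filter Topology Set

theorem AF_one (Ω : Set (ℝ × ℝ)) (R : ℝ) (hR : 0 < R) (hΩ : IsOpen Ω) (q : ℝ × ℝ)
    (hq : q ∈ Circ R) (h : InArc Ω R q) : q ∈ frontier Ω := by
  obtain ⟨δ, hδ, h⟩ := h
  have hq' : q.1 ^ 2 + q.2 ^ 2 = R ^ 2 := hq
  rw [frontier, hΩ.interior_eq]
  constructor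
  · have ht : Tendsto (fun ε : ℝ => ((1 - ε) * q.1, (1 - ε) * q.2)) (𝓝[>] 0) (𝓝 q) := by
      have h1 : Continuous (fun ε : ℝ => ((1 - ε) * q.1, (1 - ε) * q.2)) := by fun_prop
      have h2 := h1.tendsto 0
      simp only [sub_zero, one_mul, Prod.mk.eta] at h2
      exact h2.mono_left nhdsWithin_le_nhds
    refine mem_closure_of_tendsto ht ?_
    have h3 : Ioo (0 : ℝ) (min 1 (δ / R)) ∈ 𝓝[>] (0 : ℝ) :=
      Ioo_mem_nhdsGT (lt_min one_pos (div_pos hδ hR))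
    filter_upwards [h3] with ε hε
    have h4 : ε < 1 := hε.2.trans_le (min_le_left _ _)
    have h5 : ε * R < δ := (lt_div_iff₀ hR).1 (hε.2.trans_le (min_le_right _ _))
    have h6 : ((1 - ε) * q.1, (1 - ε) * q.2) ∈ Dsc q δ := by
      show ((1 - ε) * q.1 - q.1) ^ 2 + ((1 - ε) * q.2 - q.2) ^ 2 < δ ^ 2
      have h7 : ((1 - ε) * q.1 - q.1) ^ 2 + ((1 - ε) * q.2 - q.2) ^ 2 = (ε * R) ^ 2 := by
        rw [mul_pow, ← hq']; ring
      rw [h7]
      exact pow_lt_pow_left₀ h5 (mul_nonneg hε.1.le hR.le) two_ne_zero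
    rw [h _ h6]
    have h8 : ((1 - ε) * q.1) ^ 2 + ((1 - ε) * q.2) ^ 2 = (1 - ε) ^ 2 * R ^ 2 := by
      rw [← hq']; ring
    show ((1 - ε) * q.1) ^ 2 + ((1 - ε) * q.2) ^ 2 < R ^ 2
    rw [h8]
    have h9 : (1 - ε) ^ 2 < 1 := by nlinarith [hε.1]
    nlinarith [pow_pos hR 2]
  · intro hc
    have h1 : q ∈ Dsc q δ := by
      show (q.1 - q.1) ^ 2 + (q.2 - q.2) ^ 2 < δ ^ 2
      have h0 : 0 < δ ^ 2 := pow_pos hδ 2
      simpa using h0
    have h2 := (h q h1).1 hc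
    linarith

theorem AF : AF_stmt := by
  intro Ω R hR hΩ
  refine ⟨AF_one Ω R hR hΩ, ?_⟩
  intro α1 α2 hα h
  have hc : Continuous (fun α : ℝ => cp R α) := by
    unfold cp
    fun_prop
  have ht : Tendsto (fun α : ℝ => cp R α) (𝓝[<] α2) (𝓝 (cp R α2)) :=
    (hc.tendsto α2).mono_left nhdsWithin_le_nhds
  refine isClosed_frontier.mem_of_tendsto ht ?_
  have h3 : Ico α1 α2 ∈ 𝓝[<] α2 := Ico_mem_nhdsLT hα
  filter_upwards [h3] with α hα'
  refine AF_one Ω R hR hΩ _ ?_ (h α hα'.1 hα'.2)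
  show (R * Real.cos α) ^ 2 + (R * Real.sin α) ^ 2 = R ^ 2
  have := Real.sin_sq_add_cos_sq α
  nlinarith [this]

end NS
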