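import Pool.Agent.helper29.NS.SpecC

/-!
# ns: module `EV`: the equation of the azimuthal velocity in a swept annulus
-/

namespace NS

open MeasureTheory Filter Topology Set

/-- The embedding of the half plane `(t, r)`. -/
noncomputable def EV_L : ℝ × ℝ →L[ℝ] ℝ × ℝ × ℝ :=
  (ContinuousLinearMap.fst ℝ ℝ ℝ).prod ((ContinuousLinearMap.snd ℝ ℝ ℝ).prod 0)

theorem EV_L_apply (z : ℝ × ℝ) : EV_L z = (z.1, (z.2, 0)) := rfl

theorem EV_comp (f : ℝ × ℝ × ℝ → ℝ) (hf : Differentiable ℝ f) (z v : ℝ × ℝ) :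
    fderiv ℝ (fun z : ℝ × ℝ => f (z.1, (z.2, 0))) z v = fderiv ℝ f (z.1, (z.2, 0)) (v.1, (v.2, 0)) := by
  have h1 : (fun z : ℝ × ℝ => f (z.1, (z.2, 0))) = f ∘ EV_L := rfl
  have h2 : HasFDerivAt (f ∘ EV_L) ((fderiv ℝ f (EV_L z)).comp EV_L) z :=
    (hf (EV_L z)).hasFDerivAt.comp z EV_L.hasFDerivAt
  rw [h1, h2.fderiv]
  rfl

/-- The derivative in a space direction of a function which vanishes near a point at the time `t`. -/
theorem EV_zero (f : ℝ × ℝ × ℝ → ℝ) (hf : Differentiable ℝ f) (U : Set (ℝ × ℝ)) (hU : IsOpen U)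
    (t : ℝ) (h0 : ∀ q ∈ U, f (t, q) = 0) (q : ℝ × ℝ) (hq : q ∈ U) (v : ℝ × ℝ) :
    fderiv ℝ f (t, q) (0, v) = 0 := by
  have h1 : HasDerivAt (fun s : ℝ => ((t, q + s • v) : ℝ × ℝ × ℝ)) (0, v) 0 := by
    have h2 : HasDerivAt (fun s : ℝ => q + s • v) v 0 := by
      simpa using (((hasDerivAt_id (0 : ℝ)).smul_const v).const_add q)
    exact (hasDerivAt_const (0 : ℝ) t).prodMk h2
  have h2 : HasFDerivAt f (fderiv ℝ f (t, q)) ((t, q + (0 : ℝ) • v) : ℝ × ℝ × ℝ) := by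
    simpa using (hf (t, q)).hasFDerivAt
  have h3 := h2.comp_hasDerivAt (0 : ℝ) h1
  have h4 : (f ∘ fun s : ℝ => ((t, q + s • v) : ℝ × ℝ × ℝ)) =ᶠ[𝓝 0] fun _ => 0 := by
    have h5 : ContinuousAt (fun s : ℝ => q + s • v) 0 := by fun_prop
    have h6 : (fun s : ℝ => q + s • v) ⁻¹' U ∈ 𝓝 (0 : ℝ) :=
      h5 (by simpa using hU.mem_nhds hq)
    filter_upwards [h6] with s hs
    exact h0 _ hs
  have h5 : HasDerivAt (f ∘ fun s : ℝ => ((t, q + s • v) : ℝ × ℝ × ℝ)) 0 0 :=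
    (hasDerivAt_const (0 : ℝ) (0 : ℝ)).congr_of_eventuallyEq h4
  exact h3.unique h5

theorem EV_ring_open (r R : ℝ) : IsOpen (Ring r R) := by
  have h1 : Continuous fun q : ℝ × ℝ => q.1 ^ 2 + q.2 ^ 2 := by fun_prop
  exact (isOpen_lt continuous_const h1).inter (isOpen_lt h1 continuous_const)

/-- The circle is in the boundary. -/
theorem EV_frontier (Ω : Set (ℝ × ℝ)) (R : ℝ) (h : OuterCircle Ω R) : Circ R ⊆ frontier Ω := by
  obtain ⟨hR, hins, r, hr0, hrR, hring⟩ := h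
  intro q hq
  have hq' : q.1 ^ 2 + q.2 ^ 2 = R ^ 2 := hq
  refine ⟨?_, fun hi => ?_⟩
  · have h1 : Tendsto (fun s : ℝ => s • q) (𝓝[<] 1) (𝓝 q) := by
      have : Tendsto (fun s : ℝ => s • q) (𝓝 1) (𝓝 ((1 : ℝ) • q)) := by
        exact (continuous_id.smul continuous_const).tendsto 1
      rw [one_smul] at this
      exact this.mono_left nhdsWithin_le_nhds
    refine mem_closure_of_tendsto h1 ?_
    have h2 : ∀ᶠ s : ℝ in 𝓝[<] 1, s ∈ Ioo (r / R) 1 :=
      Ioo_mem_nhdsLT (by rw [div_lt_one hR]; exact hrR)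
    filter_upwards [h2] with s hs
    apply hring
    have hs0 : 0 ≤ r / R := div_nonneg hr0 hR.le
    have hs1 : r < s * R := by
      have := hs.1
      rwa [div_lt_iff₀ hR] at this
    have e : (s • q).1 ^ 2 + (s • q).2 ^ 2 = s ^ 2 * R ^ 2 := by
      simp only [Prod.smul_fst, Prod.smul_snd, smul_eq_mul]
      rw [← hq']
      ring
    have hs2 : 0 < s := lt_of_le_of_lt hs0 hs.1
    have hR2 : 0 < R ^ 2 := by positivity
    refine ⟨?_, ?_⟩
    · rw [e]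
      nlinarith
    · rw [e]
      have hs3 : s ^ 2 < 1 := by nlinarith [hs.2]
      nlinarith
  · have := hins q (interior_subset hi)
    linarith

theorem EV (hRR : RR_stmt) : EV_stmt := by
  intro Ω ν R t1 G a1 b1 a2 b2 a b m n hCD ρ hρ hρR hS
  have hb3 := hCD.dmm.cb
  have hbd : Differentiable ℝ b := hb3.differentiable (by norm_num)
  have hL2 : ContDiff ℝ 2 (fun z : ℝ × ℝ => b (z.1, (z.2, 0))) := by
    have : ContDiff ℝ 2 (b ∘ EV_L) := (hb3.of_le (by norm_num)).comp EV_L.contDiff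
    exact this
  have hdx : ∀ t r, py (fun z : ℝ × ℝ => b (z.1, (z.2, 0))) (t, r) = dx b (t, (r, 0)) := by
    intro t r
    exact EV_comp b hbd (t, r) (0, 1)
  refine ⟨hL2, ?_, hdx⟩
  intro t ht r hr1 hr2
  obtain ⟨hsub, hmn, hRI⟩ := hS
  have hr0 : 0 < r := lt_of_le_of_lt hρ hr1
  have hq : ((r, 0) : ℝ × ℝ) ∈ Ring ρ R := by
    constructor
    · show ρ ^ 2 < r ^ 2 + 0 ^ 2
      nlinarith
    · show r ^ 2 + 0 ^ 2 < R ^ 2
      nlinarith
  have hqΩ := hsub hq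
  -- the heat equation
  have heb := hCD.dmm.eb t (r, 0) hqΩ
  have hnd : Differentiable ℝ n := hCD.dmm.cn.differentiable (by norm_num)
  have hn0 : ∀ q ∈ Ring ρ R, n (t, q) = 0 := fun q hq => (hmn t ht q hq).2
  have h1 : dx n (t, ((r, 0) : ℝ × ℝ)) = 0 :=
    EV_zero n hnd _ (EV_ring_open ρ R) t hn0 (r, 0) hq (1, 0)
  have h2 : dy n (t, ((r, 0) : ℝ × ℝ)) = 0 :=
    EV_zero n hnd _ (EV_ring_open ρ R) t hn0 (r, 0) hq (0, 1)
  rw [(hmn t ht _ hq).1, (hmn t ht _ hq).2, h1, h2] at heb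
  -- the rotation invariance
  have hrr := hRR R ρ t a b hρ hρR (hCD.dmm.ca.of_le (by norm_num)) (hb3.of_le (by norm_num))
    (fun α s hs q hq => by
      rw [mem_singleton_iff] at hs
      subst hs
      exact hRI α s ht q hq)
    (fun q hq => hCD.dmm.da t q (hsub hq))
    (fun q hq => by
      have := hCD.dmm.bc t q (EV_frontier Ω R hCD.oc hq)
      exact ⟨this.1, this.2.1⟩) (r, 0) hq
  obtain ⟨-, -, h3⟩ := hrr
  obtain ⟨-, -, -, -, h4⟩ := h3 r hr1 hr2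
  have e1 : px (fun z : ℝ × ℝ => b (z.1, (z.2, 0))) (t, r) = dt b (t, (r, 0)) :=
    EV_comp b hbd (t, r) (1, 0)
  have e2 : py (py (fun z : ℝ × ℝ => b (z.1, (z.2, 0)))) (t, r) = dx (dx b) (t, (r, 0)) := by
    have hf : py (fun z : ℝ × ℝ => b (z.1, (z.2, 0))) = fun z : ℝ × ℝ => dx b (z.1, (z.2, 0)) := by
      funext z
      exact hdx z.1 z.2
    rw [hf]
    have hdd : Differentiable ℝ (dx b) := by
      have : ContDiff ℝ 2 (dx b) := by
        unfold dx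
        exact (hb3.fderiv_right (m := 2) (by norm_num)).clm_apply contDiff_const
      exact this.differentiable (by norm_num)
    exact EV_comp (dx b) hdd (t, r) (0, 1)
  rw [e1, e2, hdx t r]
  have h5 : dy (dy b) (t, ((r, 0) : ℝ × ℝ)) = dx b (t, (r, 0)) / r - b (t, (r, 0)) / r ^ 2 := by
    field_simp
    linarith
  rw [h5] at heb
  linarith

end NS
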