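import Mathlib
import Pool.Agent.helper29.NS.SpecC

/-!
# Project ns, module YI: unique continuation on a time window, in a connected open set (from YZ).
-/

namespace NS

open MeasureTheory Filter Topology Set

/-- The scaling of time, as a continuous linear equivalence. -/
noncomputable def YI_E (a : ℝ) (ha : a ≠ 0) : (ℝ × ℝ × ℝ) ≃L[ℝ] (ℝ × ℝ × ℝ) :=
  LinearEquiv.toContinuousLinearEquiv
    { toFun := fun z => (a * z.1, z.2)
      map_add' := fun x y => by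
        ext <;> simp [mul_add]
      map_smul' := fun c x => by
        ext <;> simp [mul_left_comm]
      invFun := fun z => (a⁻¹ * z.1, z.2)
      left_inv := fun z => by
        ext <;> simp [ha]
      right_inv := fun z => by
        ext <;> simp [ha] }

theorem YI_E_apply (a : ℝ) (ha : a ≠ 0) (z : ℝ × ℝ × ℝ) : YI_E a ha z = (a * z.1, z.2) := rfl

/-- The rescaled function. -/
noncomputable def YI_f (f : ℝ × ℝ × ℝ → ℝ) (a : ℝ) (ha : a ≠ 0) (T : ℝ × ℝ × ℝ) :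
    ℝ × ℝ × ℝ → ℝ := fun z => f (YI_E a ha z + T)

theorem YI_fderiv (f : ℝ × ℝ × ℝ → ℝ) (a : ℝ) (ha : a ≠ 0) (T z u : ℝ × ℝ × ℝ) :
    fderiv ℝ (YI_f f a ha T) z u = fderiv ℝ f (YI_E a ha z + T) (YI_E a ha u) := by
  have h1 : YI_f f a ha T = (fun z => f (z + T)) ∘ (YI_E a ha) := rfl
  rw [h1, ContinuousLinearEquiv.comp_right_fderiv, fderiv_comp_add_right]
  rfl

theorem YI_dt (f : ℝ × ℝ × ℝ → ℝ) (a : ℝ) (ha : a ≠ 0) (T : ℝ × ℝ × ℝ) :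
    dt (YI_f f a ha T) = fun z => a * dt f (YI_E a ha z + T) := by
  funext z
  unfold dt
  rw [YI_fderiv, YI_E_apply a ha (1, 0, 0)]
  have h2 : ((a * ((1 : ℝ), (0 : ℝ), (0 : ℝ)).1, ((1 : ℝ), (0 : ℝ), (0 : ℝ)).2) : ℝ × ℝ × ℝ)
      = a • ((1 : ℝ), (0 : ℝ), (0 : ℝ)) := by
    ext <;> simp
  rw [h2, map_smul, smul_eq_mul]

theorem YI_dx (f : ℝ × ℝ × ℝ → ℝ) (a : ℝ) (ha : a ≠ 0) (T : ℝ × ℝ × ℝ) :
    dx (YI_f f a ha T) = YI_f (dx f) a ha T := by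
  funext z
  unfold dx
  rw [YI_fderiv, YI_E_apply a ha (0, 1, 0)]
  simp only [mul_zero]
  rfl

theorem YI_dy (f : ℝ × ℝ × ℝ → ℝ) (a : ℝ) (ha : a ≠ 0) (T : ℝ × ℝ × ℝ) :
    dy (YI_f f a ha T) = YI_f (dy f) a ha T := by
  funext z
  unfold dy
  rw [YI_fderiv, YI_E_apply a ha (0, 0, 1)]
  simp only [mul_zero]
  rfl

theorem YI_lap (f : ℝ × ℝ × ℝ → ℝ) (a : ℝ) (ha : a ≠ 0) (T z : ℝ × ℝ × ℝ) :
    lap (YI_f f a ha T) z = lap f (YI_E a ha z + T) := by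
  unfold lap
  rw [YI_dx, YI_dy, YI_dx, YI_dy]
  rfl

theorem YI_heat (ν : ℝ) (f : ℝ × ℝ × ℝ → ℝ) (a : ℝ) (ha : a ≠ 0) (T z : ℝ × ℝ × ℝ) :
    heat (a * ν) (YI_f f a ha T) z = a * heat ν f (YI_E a ha z + T) := by
  unfold heat
  rw [YI_dt, YI_dx, YI_dy, YI_dx, YI_dy]
  simp only [YI_f]
  ring

theorem YI_Dsc_sub (c : ℝ × ℝ) (R : ℝ) (hR : 0 < R) : Dsc c R ⊆ Metric.ball c R := by
  intro q hq
  have h : (q.1 - c.1) ^ 2 + (q.2 - c.2) ^ 2 < R ^ 2 := hq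
  rw [Metric.mem_ball, Prod.dist_eq, max_lt_iff, Real.dist_eq, Real.dist_eq]
  constructor
  · apply abs_lt_of_sq_lt_sq _ hR.le
    nlinarith [sq_nonneg (q.2 - c.2)]
  · apply abs_lt_of_sq_lt_sq _ hR.le
    nlinarith [sq_nonneg (q.1 - c.1)]

theorem YI_sub_Dsc (c q : ℝ × ℝ) (R : ℝ) (hR : 0 < R) (h : dist q c < R / 2) : q ∈ Dsc c R := by
  rw [Prod.dist_eq, max_lt_iff, Real.dist_eq, Real.dist_eq, abs_lt, abs_lt] at h
  show (q.1 - c.1) ^ 2 + (q.2 - c.2) ^ 2 < R ^ 2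
  have h1 : (q.1 - c.1) ^ 2 < (R / 2) ^ 2 := by nlinarith [h.1.1, h.1.2]
  have h2 : (q.2 - c.2) ^ 2 < (R / 2) ^ 2 := by nlinarith [h.2.1, h.2.2]
  nlinarith

theorem YI_Dsc_open (c : ℝ × ℝ) (R : ℝ) : IsOpen (Dsc c R) := by
  unfold Dsc
  apply isOpen_lt _ continuous_const
  fun_prop

theorem YI_dsc (c q : ℝ × ℝ) (R : ℝ) : q + c ∈ Dsc c R ↔ q ∈ Dsc 0 R := by
  unfold Dsc
  simp

/-- The time window is mapped into the given one. -/
theorem YI_mem {α β a t : ℝ} (ha : 0 < a) (h1 : α + 3 * a ≤ t) (h2 : t + 3 * a ≤ β)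
    {s : ℝ} (hs : s ∈ Ioo (-3 : ℝ) 3) : a * s + t ∈ Ioo α β := by
  constructor
  · nlinarith [hs.1]
  · nlinarith [hs.2]

theorem YI_smooth {v : ℝ × ℝ × ℝ → ℝ} {c : ℝ × ℝ} {R α β a t : ℝ} (ha : 0 < a)
    (h1 : α + 3 * a ≤ t) (h2 : t + 3 * a ≤ β) (hv : ContDiffOn ℝ 2 v (Ioo α β ×ˢ Dsc c R)) :
    ContDiffOn ℝ 2 (YI_f v a ha.ne' (t, c)) (Ioo (-3 : ℝ) 3 ×ˢ Dsc 0 R) := by
  have h3 : ContDiff ℝ 2 (fun z : ℝ × ℝ × ℝ => YI_E a ha.ne' z + (t, c)) :=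
    (YI_E a ha.ne').contDiff.add contDiff_const
  refine hv.comp (t := Ioo α β ×ˢ Dsc c R) h3.contDiffOn ?_
  rintro ⟨s, q⟩ ⟨hs, hq⟩
  exact ⟨YI_mem ha h1 h2 hs, (YI_dsc c q R).2 hq⟩

/-- The local statement. -/
theorem YI_loc (hYZ : YZ_stmt) (c : ℝ × ℝ) (R ε α β ν K : ℝ) (v w : ℝ × ℝ × ℝ → ℝ) (hε : 0 < ε)
    (hR : ε < R) (hν : 0 < ν) (hv : ContDiffOn ℝ 2 v (Ioo α β ×ˢ Dsc c R))
    (hw : ContDiffOn ℝ 2 w (Ioo α β ×ˢ Dsc c R))
    (hK : ∀ t ∈ Ioo α β, ∀ q ∈ Dsc c R, |heat ν v (t, q)| + |heat ν w (t, q)| ≤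
      K * (|v (t, q)| + |w (t, q)| + |dx v (t, q)| + |dy v (t, q)| + |dx w (t, q)| + |dy w (t, q)|))
    (h0 : ∀ t ∈ Ioo α β, ∀ q ∈ Dsc c ε, v (t, q) = 0 ∧ w (t, q) = 0) :
    ∀ t ∈ Ioo α β, ∀ q ∈ Dsc c R, v (t, q) = 0 ∧ w (t, q) = 0 := by
  intro t ht q hq
  obtain ⟨a, ha, h1, h2⟩ : ∃ a : ℝ, 0 < a ∧ α + 3 * a ≤ t ∧ t + 3 * a ≤ β := by
    refine ⟨min ((t - α) / 3) ((β - t) / 3), lt_min (by linarith [ht.1]) (by linarith [ht.2]),
      ?_, ?_⟩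
    · linarith [min_le_left ((t - α) / 3) ((β - t) / 3)]
    · linarith [min_le_right ((t - α) / 3) ((β - t) / 3)]
  have h := hYZ R ε (a * ν) (a * K) (YI_f v a ha.ne' (t, c)) (YI_f w a ha.ne' (t, c)) hε hR
    (mul_pos ha hν) (YI_smooth ha h1 h2 hv) (YI_smooth ha h1 h2 hw) ?_ ?_ (q - c) ?_
  · have e : YI_E a ha.ne' ((0 : ℝ), q - c) + (t, c) = (t, q) := by
      rw [YI_E_apply, Prod.mk_add_mk]; simp
    simp only [YI_f, e] at h
    exact h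
  · intro s hs p hp
    have hp' : p + c ∈ Dsc c R := (YI_dsc c p R).2 hp
    have h3 := hK (a * s + t) (YI_mem ha h1 h2 hs) (p + c) hp'
    have e : YI_E a ha.ne' (s, p) + (t, c) = (a * s + t, p + c) := rfl
    rw [YI_heat, YI_heat, YI_dx, YI_dx, YI_dy, YI_dy]
    simp only [YI_f, e, abs_mul, abs_of_pos ha]
    nlinarith [mul_le_mul_of_nonneg_left h3 ha.le]
  · intro s hs p hp
    have hp' : p + c ∈ Dsc c ε := (YI_dsc c p ε).2 hp
    exact h0 (a * s + t) (YI_mem ha h1 h2 hs) (p + c) hp'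
  · rw [← YI_dsc c (q - c) R]
    simpa using hq

theorem YI (hYZ : YZ_stmt) : YI_stmt := by
  intro O α β ν K v w hO hOc hν hv hw hineq ⟨U, hU, hUne, hUO, hUz⟩
  set S : Set (ℝ × ℝ) := {q | ∀ t ∈ Ioo α β, v (t, q) = 0 ∧ w (t, q) = 0} with hS
  have hUS : U ⊆ interior S := interior_maximal (fun q hq t ht => hUz t ht q hq) hU
  have key : O ⊆ interior S := by
    apply hOc.subset_of_closure_inter_subset isOpen_interior
    · obtain ⟨q, hq⟩ := hUne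
      exact ⟨q, hUO hq, hUS hq⟩
    · rintro q ⟨hqc, hqO⟩
      obtain ⟨ρ, hρ, hρO⟩ := Metric.isOpen_iff.1 hO q hqO
      have hR : 0 < ρ / 2 := by positivity
      obtain ⟨c, hcS, hcq⟩ := Metric.mem_closure_iff.1 hqc (ρ / 2 / 2) (by positivity)
      obtain ⟨ε', hε', hε'S⟩ := Metric.isOpen_iff.1 isOpen_interior c hcS
      have hsub : Dsc c (ρ / 2) ⊆ O := by
        intro z hz
        apply hρO
        have h1 := YI_Dsc_sub c (ρ / 2) hR hz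
        rw [Metric.mem_ball] at h1 ⊢
        have h2 := dist_triangle z c q
        rw [dist_comm c q] at h2
        linarith
      set ε : ℝ := min ε' (ρ / 4) with hε
      have hε0 : 0 < ε := lt_min hε' (by positivity)
      have hε1 : ε ≤ ρ / 4 := min_le_right _ _
      have hz := YI_loc hYZ c (ρ / 2) ε α β ν K v w hε0 (by linarith) hν
        (hv.mono (prod_mono_right hsub)) (hw.mono (prod_mono_right hsub))
        (fun t ht z hz => hineq t ht z (hsub hz))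
        (fun t ht z hz => by
          have h1 := YI_Dsc_sub c ε hε0 hz
          have h2 : z ∈ Metric.ball c ε' := Metric.ball_subset_ball (min_le_left _ _) h1
          exact interior_subset (hε'S h2) t ht)
      have h3 : Dsc c (ρ / 2) ⊆ interior S :=
        interior_maximal (fun z hz' t ht => hz t ht z hz') (YI_Dsc_open _ _)
      exact h3 (YI_sub_Dsc c q (ρ / 2) hR hcq)
  intro t ht q hq
  exact interior_subset (key hq) t ht

end NS
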